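import Mathlib

/-!
# Forests of left-right pairs have no rootless trees

`K` is a subfield of `ℂ`, `quadrant K` is the set `D₀` of the elements of `K` in the open first
quadrant, and matrices with entries in `ℕ` and determinant `1` act on it by linear fractional
transformations. For a left-right pair `(L, R)` the forest has vertex set `D₀` and the edges
`z → L z`, `z → R z`.

If `z = P w` with `P = T₁ ⋯ Tₙ`, all `Tᵢ ∈ {L, R}`, and `(c, d)` is the bottom row of `P`, then
`Im z = Im w / |c w + d| ^ 2 ≤ 1 / (2 c d)`. The bottom row grows with every step unless `c = 0`,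
and as long as `c = 0` the real part of `z` is at least the number of steps.
-/

namespace Pool.Agent.Results.MP_b00f03_nt.NoRootlessTrees

/-- The vertex set `D₀ = {x + y i ∈ K : x > 0, y > 0}`. -/
def quadrant (K : Subfield ℂ) : Set ℂ := {z | z ∈ K ∧ 0 < z.re ∧ 0 < z.im}

/-- The linear fractional transformation `z ↦ (a z + b) / (c z + d)`. -/
noncomputable def act (T : Matrix (Fin 2) (Fin 2) ℕ) (z : ℂ) : ℂ :=
  ((T 0 0 : ℂ) * z + (T 0 1 : ℂ)) / ((T 1 0 : ℂ) * z + (T 1 1 : ℂ))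

/-- A left-right pair: two non-identity matrices with entries in `ℕ` and determinant
`a d - b c = 1` such that the images of `D₀` are disjoint. -/
structure IsLeftRightPair (K : Subfield ℂ) (L R : Matrix (Fin 2) (Fin 2) ℕ) : Prop where
  det_left : L 0 0 * L 1 1 = L 0 1 * L 1 0 + 1
  det_right : R 0 0 * R 1 1 = R 0 1 * R 1 0 + 1
  left_ne_one : L ≠ 1
  right_ne_one : R ≠ 1
  disjoint : Disjoint (act L '' quadrant K) (act R '' quadrant K)

/-- The edges `z → L z` and `z → R z`, `z ∈ D₀`, of the forest; `z` is the parent of `w`. -/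
def Edge (K : Subfield ℂ) (L R : Matrix (Fin 2) (Fin 2) ℕ) (z w : ℂ) : Prop :=
  z ∈ quadrant K ∧ (w = act L z ∨ w = act R z)

/-- A vertex without a parent. -/
def IsOrphan (K : Subfield ℂ) (L R : Matrix (Fin 2) (Fin 2) ℕ) (w : ℂ) : Prop :=
  w ∈ quadrant K ∧ ∀ z, ¬ Edge K L R z w

/-- `C` is a connected component of the forest: the set of the vertices which are connected with
some fixed vertex by a path whose edges are traversed in either direction. -/
def IsComponent (K : Subfield ℂ) (L R : Matrix (Fin 2) (Fin 2) ℕ) (C : Set ℂ) : Prop :=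
  ∃ z ∈ quadrant K, C = {w | w ∈ quadrant K ∧ Relation.EqvGen (Edge K L R) z w}

/-- The set of the ancestors (the iterated parents) of `z`. -/
def ancestors (K : Subfield ℂ) (L R : Matrix (Fin 2) (Fin 2) ℕ) (z : ℂ) : Set ℂ :=
  {w | Relation.TransGen (Edge K L R) w z}

lemma im_act {T : Matrix (Fin 2) (Fin 2) ℕ} (hT : T 0 0 * T 1 1 = T 0 1 * T 1 0 + 1) {w : ℂ}
    (_hw : 0 < w.im) :
    (act T w).im = w.im / (((T 1 0 : ℝ) * w.re + T 1 1) ^ 2 + ((T 1 0 : ℝ) * w.im) ^ 2) := by
  have hT' : (T 0 0 : ℝ) * T 1 1 = T 0 1 * T 1 0 + 1 := by exact_mod_cast hT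
  unfold act
  rw [Complex.div_im]
  simp only [Complex.add_re, Complex.add_im, Complex.mul_re, Complex.mul_im, Complex.natCast_re,
    Complex.natCast_im, zero_mul, sub_zero, add_zero, Complex.normSq_apply]
  rw [← sub_div]
  congr 1
  · linear_combination w.im * hT'
  · ring

lemma re_act {T : Matrix (Fin 2) (Fin 2) ℕ} {w : ℂ} :
    (act T w).re = (((T 0 0 : ℝ) * w.re + T 0 1) * ((T 1 0 : ℝ) * w.re + T 1 1)
      + (T 0 0 : ℝ) * w.im * ((T 1 0 : ℝ) * w.im)) /
      (((T 1 0 : ℝ) * w.re + T 1 1) ^ 2 + ((T 1 0 : ℝ) * w.im) ^ 2) := by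
  unfold act
  rw [Complex.div_re]
  simp only [Complex.add_re, Complex.add_im, Complex.mul_re, Complex.mul_im, Complex.natCast_re,
    Complex.natCast_im, zero_mul, sub_zero, add_zero, Complex.normSq_apply]
  rw [← add_div]
  congr 1
  ring

lemma one_le_of_det {T : Matrix (Fin 2) (Fin 2) ℕ} (hT : T 0 0 * T 1 1 = T 0 1 * T 1 0 + 1) :
    1 ≤ T 0 0 ∧ 1 ≤ T 1 1 := by
  constructor <;> by_contra h
  · have : T 0 0 = 0 := by omega
    rw [this] at hT; omega
  · have : T 1 1 = 0 := by omega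
    rw [this] at hT; omega

lemma den_pos {T : Matrix (Fin 2) (Fin 2) ℕ} (hT : T 0 0 * T 1 1 = T 0 1 * T 1 0 + 1) {w : ℂ}
    (hre : 0 < w.re) :
    0 < ((T 1 0 : ℝ) * w.re + T 1 1) ^ 2 + ((T 1 0 : ℝ) * w.im) ^ 2 := by
  have h1 : (1 : ℝ) ≤ T 1 1 := by exact_mod_cast (one_le_of_det hT).2
  have h2 : (0 : ℝ) ≤ T 1 0 := by positivity
  have h3 : 0 ≤ (T 1 0 : ℝ) * w.re := mul_nonneg h2 hre.le
  have h4 : 0 < ((T 1 0 : ℝ) * w.re + T 1 1) ^ 2 := by positivity
  positivity

lemma act_mem {K : Subfield ℂ} {T : Matrix (Fin 2) (Fin 2) ℕ}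
    (hT : T 0 0 * T 1 1 = T 0 1 * T 1 0 + 1) {w : ℂ} (hw : w ∈ quadrant K) :
    act T w ∈ quadrant K := by
  obtain ⟨hK, hre, him⟩ := hw
  refine ⟨?_, ?_, ?_⟩
  · unfold act
    exact K.div_mem (K.add_mem (K.mul_mem (natCast_mem K _) hK) (natCast_mem K _))
      (K.add_mem (K.mul_mem (natCast_mem K _) hK) (natCast_mem K _))
  · rw [re_act]
    apply div_pos _ (den_pos hT hre)
    have h1 : (1 : ℝ) ≤ T 1 1 := by exact_mod_cast (one_le_of_det hT).2
    have h2 : (1 : ℝ) ≤ T 0 0 := by exact_mod_cast (one_le_of_det hT).1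
    have h3 : (0 : ℝ) ≤ T 1 0 := by positivity
    have h4 : (0 : ℝ) ≤ T 0 1 := by positivity
    have h5 : 0 < (T 0 0 : ℝ) * w.re + T 0 1 := by
      have : 0 < (T 0 0 : ℝ) * w.re := mul_pos (by linarith) hre
      linarith
    have h6 : 0 < (T 1 0 : ℝ) * w.re + T 1 1 := by
      have : 0 ≤ (T 1 0 : ℝ) * w.re := mul_nonneg h3 hre.le
      linarith
    have h7 : 0 ≤ (T 0 0 : ℝ) * w.im * ((T 1 0 : ℝ) * w.im) :=
      mul_nonneg (mul_nonneg (by linarith) him.le) (mul_nonneg h3 him.le)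
    have h8 := mul_pos h5 h6
    linarith
  · rw [im_act hT him]
    exact div_pos him (den_pos hT hre)

lemma act_mul {S T : Matrix (Fin 2) (Fin 2) ℕ} (hT : T 0 0 * T 1 1 = T 0 1 * T 1 0 + 1)
    {w : ℂ} (hre : 0 < w.re) : act (S * T) w = act S (act T w) := by
  have hne : (T 1 0 : ℂ) * w + (T 1 1 : ℂ) ≠ 0 := by
    intro h
    have h1 := congrArg Complex.re h
    simp only [Complex.add_re, Complex.mul_re, Complex.natCast_re, Complex.natCast_im, zero_mul,
      sub_zero, Complex.zero_re] at h1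
    have h2 : (1 : ℝ) ≤ T 1 1 := by exact_mod_cast (one_le_of_det hT).2
    have h3 : 0 ≤ (T 1 0 : ℝ) * w.re := mul_nonneg (by positivity) hre.le
    linarith
  unfold act
  simp only [Matrix.mul_apply, Fin.sum_univ_two, Nat.cast_add, Nat.cast_mul]
  rw [mul_div_assoc', mul_div_assoc', div_add' _ _ _ hne, div_add' _ _ _ hne,
    div_div_div_cancel_right₀ hne]
  congr 1 <;> ring

/-- Distinct points have distinct images. -/
lemma act_inj {K : Subfield ℂ} {T : Matrix (Fin 2) (Fin 2) ℕ}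
    (hT : T 0 0 * T 1 1 = T 0 1 * T 1 0 + 1) {z w : ℂ} (hz : z ∈ quadrant K)
    (hw : w ∈ quadrant K) (h : act T z = act T w) : z = w := by
  have hne : ∀ {w : ℂ}, 0 < w.re → (T 1 0 : ℂ) * w + (T 1 1 : ℂ) ≠ 0 := by
    intro w hre h
    have h1 := congrArg Complex.re h
    simp only [Complex.add_re, Complex.mul_re, Complex.natCast_re, Complex.natCast_im, zero_mul,
      sub_zero, Complex.zero_re] at h1
    have h2 : (1 : ℝ) ≤ T 1 1 := by exact_mod_cast (one_le_of_det hT).2
    have h3 : 0 ≤ (T 1 0 : ℝ) * w.re := mul_nonneg (by positivity) hre.le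
    linarith
  have hT' : (T 0 0 : ℂ) * T 1 1 = T 0 1 * T 1 0 + 1 := by exact_mod_cast hT
  unfold act at h
  rw [div_eq_div_iff (hne hz.2.1) (hne hw.2.1)] at h
  linear_combination h + (w - z) * hT'

/-- If `z = P w` and `(c, d)` is the bottom row of `P`, then `2 c d Im z ≤ 1`. -/
lemma two_mul_im_le {P : Matrix (Fin 2) (Fin 2) ℕ} (hP : P 0 0 * P 1 1 = P 0 1 * P 1 0 + 1)
    {w : ℂ} (hre : 0 < w.re) (him : 0 < w.im) :
    (P 1 0 : ℝ) * P 1 1 * (2 * (act P w).im) ≤ 1 := by
  rw [im_act hP him, mul_div_assoc', mul_div_assoc', div_le_one (den_pos hP hre)]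
  have h3 : (0 : ℝ) ≤ P 1 0 := by positivity
  have h4 : (0 : ℝ) ≤ P 1 1 := by positivity
  have h5 : 0 ≤ (P 1 0 : ℝ) * w.re := mul_nonneg h3 hre.le
  have h6 : 0 ≤ (P 1 0 : ℝ) * w.re * P 1 1 := mul_nonneg h5 h4
  nlinarith [sq_nonneg ((P 1 1 : ℝ) - P 1 0 * w.im), sq_nonneg ((P 1 0 : ℝ) * w.re)]

/-- The invariant of the matrices `P` with `z = P w` for the `n`-th ancestor `w` of `z`. -/
def Inv (n : ℕ) (P : Matrix (Fin 2) (Fin 2) ℕ) : Prop :=
  P 0 0 * P 1 1 = P 0 1 * P 1 0 + 1 ∧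
  ((P 1 0 = 0 ∧ n ≤ P 0 1) ∨
    ∃ m b : ℕ, ∃ Q : Matrix (Fin 2) (Fin 2) ℕ, m ≤ b ∧ P = !![1, b; 0, 1] * Q ∧
      Q 0 0 * Q 1 1 = Q 0 1 * Q 1 0 + 1 ∧ 1 ≤ Q 1 0 ∧ n + 1 ≤ m + (Q 1 0 + Q 1 1))

lemma ne_one_cases {T : Matrix (Fin 2) (Fin 2) ℕ} (hT : T 0 0 * T 1 1 = T 0 1 * T 1 0 + 1)
    (h1 : T ≠ 1) : 1 ≤ T 1 0 ∨ (T 1 0 = 0 ∧ 1 ≤ T 0 1 ∧ T 0 0 = 1 ∧ T 1 1 = 1) := by
  by_cases hc : T 1 0 = 0
  · right
    rw [hc, mul_zero, zero_add] at hT
    have ha : T 0 0 = 1 := Nat.eq_one_of_mul_eq_one_right hT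
    have hd : T 1 1 = 1 := Nat.eq_one_of_mul_eq_one_left hT
    refine ⟨hc, ?_, ha, hd⟩
    by_contra hb
    apply h1
    ext i j
    fin_cases i <;> fin_cases j <;> simp [ha, hd, hc]
    omega
  · left; omega

lemma det_mul {S T : Matrix (Fin 2) (Fin 2) ℕ} (hS : S 0 0 * S 1 1 = S 0 1 * S 1 0 + 1)
    (hT : T 0 0 * T 1 1 = T 0 1 * T 1 0 + 1) :
    (S * T) 0 0 * (S * T) 1 1 = (S * T) 0 1 * (S * T) 1 0 + 1 := by
  have hS' : (S 0 0 : ℤ) * S 1 1 = S 0 1 * S 1 0 + 1 := by exact_mod_cast hS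
  have hT' : (T 0 0 : ℤ) * T 1 1 = T 0 1 * T 1 0 + 1 := by exact_mod_cast hT
  simp only [Matrix.mul_apply, Fin.sum_univ_two]
  zify
  linear_combination ((T 0 0 : ℤ) * T 1 1 - T 0 1 * T 1 0) * hS' + hT'

lemma inv_step {n : ℕ} {P T : Matrix (Fin 2) (Fin 2) ℕ} (hP : Inv n P)
    (hT : T 0 0 * T 1 1 = T 0 1 * T 1 0 + 1) (h1 : T ≠ 1) : Inv (n + 1) (P * T) := by
  obtain ⟨hdet, h⟩ := hP
  refine ⟨det_mul hdet hT, ?_⟩
  rcases h with ⟨hc, hn⟩ | ⟨m, b, Q, hmb, hPQ, hQ, hc, hn⟩
  · have hPdet := hdet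
    rw [hc, mul_zero, zero_add] at hPdet
    have ha : P 0 0 = 1 := Nat.eq_one_of_mul_eq_one_right hPdet
    have hd : P 1 1 = 1 := Nat.eq_one_of_mul_eq_one_left hPdet
    rcases ne_one_cases hT h1 with hTc | ⟨hTc, hTb, hTa, hTd⟩
    · right
      refine ⟨n, P 0 1, T, hn, ?_, hT, hTc, ?_⟩
      · congr 1
        ext i j
        fin_cases i <;> fin_cases j <;> simp [ha, hd, hc]
      · have := (one_le_of_det hT).2
        omega
    · left
      simp only [Matrix.mul_apply, Fin.sum_univ_two, ha, hd, hc, hTc, hTd]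
      omega
  · right
    refine ⟨m, b, Q * T, hmb, by rw [hPQ, Matrix.mul_assoc], det_mul hQ hT, ?_, ?_⟩
    · simp only [Matrix.mul_apply, Fin.sum_univ_two]
      have h2 := (one_le_of_det hT).1
      have h3 : 1 * 1 ≤ Q 1 0 * T 0 0 := Nat.mul_le_mul hc h2
      omega
    · simp only [Matrix.mul_apply, Fin.sum_univ_two]
      have h2 := (one_le_of_det hT).1
      have h3 := (one_le_of_det hT).2
      have h4 := (one_le_of_det hQ).2
      have h5 : Q 1 0 * 1 ≤ Q 1 0 * T 0 0 := Nat.mul_le_mul le_rfl h2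
      have h6 : Q 1 1 * 1 ≤ Q 1 1 * T 1 1 := Nat.mul_le_mul le_rfl h3
      rcases ne_one_cases hT h1 with hTc | ⟨hTc, hTb, hTa, hTd⟩
      · have h7 : 1 * 1 ≤ Q 1 1 * T 1 0 := Nat.mul_le_mul h4 hTc
        omega
      · have h7 : 1 * 1 ≤ Q 1 0 * T 0 1 := Nat.mul_le_mul hc hTb
        omega

/-- The invariant bounds the number of steps. -/
lemma inv_bound {n : ℕ} {P : Matrix (Fin 2) (Fin 2) ℕ} (hP : Inv n P) {w : ℂ} (hre : 0 < w.re)
    (him : 0 < w.im) : (n : ℝ) < (act P w).re + 1 / (2 * (act P w).im) := by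
  obtain ⟨hdet, h⟩ := hP
  have hzim : 0 < (act P w).im := by
    rw [im_act hdet him]; exact div_pos him (den_pos hdet hre)
  have hpos : 0 < 1 / (2 * (act P w).im) := by positivity
  rcases h with ⟨hc, hn⟩ | ⟨m, b, Q, hmb, hPQ, hQ, hc, hn⟩
  · rw [hc, mul_zero, zero_add] at hdet
    have ha : P 0 0 = 1 := Nat.eq_one_of_mul_eq_one_right hdet
    have hd : P 1 1 = 1 := Nat.eq_one_of_mul_eq_one_left hdet
    have h1 : act P w = w + P 0 1 := by
      unfold act; rw [ha, hd, hc]; simp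
    have h2 : (act P w).re = w.re + P 0 1 := by rw [h1]; simp
    have h3 : (n : ℝ) ≤ P 0 1 := by exact_mod_cast hn
    rw [h2] at *
    linarith
  · have hU : act P w = act Q w + b := by
      rw [hPQ, act_mul hQ hre]
      simp [act]
    have h2 : (act P w).re = (act Q w).re + b := by rw [hU]; simp
    have h3 : (act P w).im = (act Q w).im := by rw [hU]; simp
    have hQre : 0 < (act Q w).re := by
      have : act Q w ∈ quadrant ⊤ := act_mem hQ ⟨by simp, hre, him⟩
      exact this.2.1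
    have h4 := two_mul_im_le hQ hre him
    rw [← h3] at h4
    have h5 : (Q 1 0 : ℝ) * Q 1 1 ≤ 1 / (2 * (act P w).im) := by
      rw [le_div_iff₀ (by positivity)]; exact h4
    have h6 : (1 : ℝ) ≤ Q 1 0 := by exact_mod_cast hc
    have h7 : (1 : ℝ) ≤ Q 1 1 := by exact_mod_cast (one_le_of_det hQ).2
    have h8 : (n : ℝ) + 1 ≤ m + (Q 1 0 + Q 1 1) := by exact_mod_cast hn
    have h9 : (m : ℝ) ≤ b := by exact_mod_cast hmb
    nlinarith

/-- The matrix of an ancestor. -/
lemma exists_inv {K : Subfield ℂ} {L R : Matrix (Fin 2) (Fin 2) ℕ} (h : IsLeftRightPair K L R)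
    {f : ℕ → ℂ} {n : ℕ} (h0 : f 0 ∈ quadrant K) (hf : ∀ i < n, Edge K L R (f (i + 1)) (f i)) :
    f n ∈ quadrant K ∧ ∃ P, Inv n P ∧ f 0 = act P (f n) := by
  induction n with
  | zero =>
    refine ⟨h0, 1, ⟨by simp, Or.inl ⟨by simp, by simp⟩⟩, ?_⟩
    simp [act]
  | succ n ih =>
    obtain ⟨hn, P, hP, hfP⟩ := ih fun i hi => hf i (by omega)
    obtain ⟨hq, he⟩ := hf n (by omega)
    refine ⟨hq, ?_⟩
    rcases he with he | he
    · exact ⟨P * L, inv_step hP h.det_left h.left_ne_one, by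
        rw [hfP, he, act_mul h.det_left hq.2.1]⟩
    · exact ⟨P * R, inv_step hP h.det_right h.right_ne_one, by
        rw [hfP, he, act_mul h.det_right hq.2.1]⟩

/-- A chain of `n` successive parents of `z` has `n < Re z + 1 / (2 Im z)`. -/
lemma chain_bound {K : Subfield ℂ} {L R : Matrix (Fin 2) (Fin 2) ℕ} (h : IsLeftRightPair K L R)
    {f : ℕ → ℂ} {n : ℕ} (h0 : f 0 ∈ quadrant K) (hf : ∀ i < n, Edge K L R (f (i + 1)) (f i)) :
    (n : ℝ) < (f 0).re + 1 / (2 * (f 0).im) := by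
  obtain ⟨hn, P, hP, hfP⟩ := exists_inv h h0 hf
  rw [hfP]
  exact inv_bound hP hn.2.1 hn.2.2

lemma parent_unique {K : Subfield ℂ} {L R : Matrix (Fin 2) (Fin 2) ℕ}
    (h : IsLeftRightPair K L R) {w w' z : ℂ} (hw : Edge K L R w z) (hw' : Edge K L R w' z) :
    w = w' := by
  obtain ⟨hq, he⟩ := hw
  obtain ⟨hq', he'⟩ := hw'
  have hd := Set.disjoint_left.mp h.disjoint
  rcases he with he | he <;> rcases he' with he' | he'
  · exact act_inj h.det_left hq hq' (he.symm.trans he')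
  · exact (hd ⟨w, hq, he.symm⟩ ⟨w', hq', he'.symm⟩).elim
  · exact (hd ⟨w', hq', he'.symm⟩ ⟨w, hq, he.symm⟩).elim
  · exact act_inj h.det_right hq hq' (he.symm.trans he')

open Classical in
/-- The parent of `z`, or `z` itself if there is none. -/
noncomputable def par (K : Subfield ℂ) (L R : Matrix (Fin 2) (Fin 2) ℕ) (z : ℂ) : ℂ :=
  if h : ∃ w, Edge K L R w z then h.choose else z

lemma par_spec {K : Subfield ℂ} {L R : Matrix (Fin 2) (Fin 2) ℕ} {z : ℂ}
    (h : ∃ w, Edge K L R w z) : Edge K L R (par K L R z) z := by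
  unfold par; rw [dif_pos h]; exact h.choose_spec

lemma par_eq {K : Subfield ℂ} {L R : Matrix (Fin 2) (Fin 2) ℕ} (h : IsLeftRightPair K L R)
    {w z : ℂ} (hw : Edge K L R w z) : par K L R z = w :=
  parent_unique h (par_spec ⟨w, hw⟩) hw

/-- An ancestor is an iterated parent, with every intermediate vertex having a parent. -/
lemma mem_ancestors {K : Subfield ℂ} {L R : Matrix (Fin 2) (Fin 2) ℕ}
    (h : IsLeftRightPair K L R) {w z : ℂ} (hw : w ∈ ancestors K L R z) :
    ∃ n : ℕ, 1 ≤ n ∧ w = (par K L R)^[n] z ∧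
      ∀ i < n, Edge K L R ((par K L R)^[i + 1] z) ((par K L R)^[i] z) := by
  change Relation.TransGen (Edge K L R) w z at hw
  induction hw using Relation.TransGen.head_induction_on with
  | single hab =>
    refine ⟨1, le_rfl, by simp [par_eq h hab], ?_⟩
    intro i hi
    have : i = 0 := by omega
    subst this
    simpa [par_eq h hab] using hab
  | head hac _ ih =>
    obtain ⟨n, hn, hcn, hch⟩ := ih
    refine ⟨n + 1, by omega, ?_, ?_⟩
    · rw [Function.iterate_succ_apply', ← hcn, par_eq h hac]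
    · intro i hi
      by_cases hin : i < n
      · exact hch i hin
      · have : i = n := by omega
        subst this
        rw [Function.iterate_succ_apply', ← hcn, par_eq h hac]
        exact hac

/-- **There are no rootless trees.** Let `K` be a subfield of `ℂ` which is not contained in `ℝ`.
The set of the left-right pairs `(L, R)` whose forest has a connected component without an orphan
is empty. More precisely, for every left-right pair every vertex `z` has fewer than
`Re z + 1 / (2 Im z)` ancestors. -/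
theorem result (K : Subfield ℂ) (_hK : ∃ z ∈ K, z.im ≠ 0) :
    {p : Matrix (Fin 2) (Fin 2) ℕ × Matrix (Fin 2) (Fin 2) ℕ | IsLeftRightPair K p.1 p.2 ∧
      ∃ C, IsComponent K p.1 p.2 C ∧ ∀ w ∈ C, ¬ IsOrphan K p.1 p.2 w} = ∅ ∧
    ∀ L R, IsLeftRightPair K L R → ∀ z ∈ quadrant K,
      (ancestors K L R z).Finite ∧
        ((ancestors K L R z).ncard : ℝ) < z.re + 1 / (2 * z.im) := by
  refine ⟨?_, ?_⟩
  · rw [Set.eq_empty_iff_forall_notMem]
    rintro ⟨L, R⟩ ⟨h, C, ⟨z, hz, rfl⟩, hC⟩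
    simp only at h hC
    -- every iterated parent of `z` is in the component
    have key : ∀ n : ℕ, (par K L R)^[n] z ∈ quadrant K ∧
        Relation.EqvGen (Edge K L R) z ((par K L R)^[n] z) := by
      intro n
      induction n with
      | zero => exact ⟨hz, Relation.EqvGen.refl _⟩
      | succ n ih =>
        have h1 := hC _ ih
        have h2 : ∃ w, Edge K L R w ((par K L R)^[n] z) := by
          by_contra hne
          push Not at hne
          exact h1 ⟨ih.1, hne⟩
        have h3 := par_spec h2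
        rw [Function.iterate_succ_apply']
        exact ⟨h3.1, ih.2.trans _ _ _ (Relation.EqvGen.rel _ _ h3).symm⟩
    have hchain : ∀ n : ℕ, Edge K L R ((par K L R)^[n + 1] z) ((par K L R)^[n] z) := by
      intro n
      have h1 := hC _ (key n)
      have h2 : ∃ w, Edge K L R w ((par K L R)^[n] z) := by
        by_contra hne
        push Not at hne
        exact h1 ⟨(key n).1, hne⟩
      rw [Function.iterate_succ_apply']
      exact par_spec h2
    obtain ⟨n, hn⟩ := exists_nat_gt (z.re + 1 / (2 * z.im))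
    have := chain_bound h (f := fun n => (par K L R)^[n] z) (n := n) hz fun i _ => hchain i
    simp only [Function.iterate_zero, id] at this
    linarith
  · intro L R h z hz
    -- the ancestors are among the first `N` iterated parents
    have hbd : ∀ n : ℕ, (∀ i < n, Edge K L R ((par K L R)^[i + 1] z) ((par K L R)^[i] z)) →
        (n : ℝ) < z.re + 1 / (2 * z.im) := by
      intro n hn
      have := chain_bound h (f := fun n => (par K L R)^[n] z) (n := n) hz hn
      simpa only [Function.iterate_zero, id] using this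
    have hpos : 0 < z.re + 1 / (2 * z.im) := by
      have := hz.2.1; have := hz.2.2; positivity
    classical
    obtain ⟨N, hN⟩ := exists_nat_gt (z.re + 1 / (2 * z.im))
    -- `M` is the largest length of a chain
    let S : Finset ℕ := (Finset.range (N + 1)).filter fun n =>
      ∀ i < n, Edge K L R ((par K L R)^[i + 1] z) ((par K L R)^[i] z)
    have hS0 : 0 ∈ S :=
      Finset.mem_filter.mpr ⟨Finset.mem_range.mpr (by omega), fun i hi => absurd hi (by omega)⟩
    let M : ℕ := S.max' ⟨0, hS0⟩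
    have hM : M ∈ S := Finset.max'_mem _ _
    have hMb : (M : ℝ) < z.re + 1 / (2 * z.im) := hbd M (Finset.mem_filter.mp hM).2
    have hsub : ancestors K L R z ⊆ ((Finset.Icc 1 M).image fun n => (par K L R)^[n] z : Finset ℂ) := by
      intro w hw
      obtain ⟨n, hn, hwn, hch⟩ := mem_ancestors h hw
      have hnN : n < N + 1 := by
        have h1 := hbd n hch
        have h2 : (n : ℝ) < N := h1.trans hN
        have : n < N := by exact_mod_cast h2
        omega
      have hnS : n ∈ S := Finset.mem_filter.mpr ⟨Finset.mem_range.mpr hnN, hch⟩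
      have hnM : n ≤ M := Finset.le_max' _ _ hnS
      rw [Finset.mem_coe, Finset.mem_image]
      exact ⟨n, Finset.mem_Icc.mpr ⟨hn, hnM⟩, hwn.symm⟩
    refine ⟨(Finset.finite_toSet _).subset hsub, ?_⟩
    have h1 : (ancestors K L R z).ncard ≤ M := by
      calc (ancestors K L R z).ncard
          ≤ ((Finset.Icc 1 M).image fun n => (par K L R)^[n] z : Finset ℂ).card := by
            rw [← Set.ncard_coe_finset]
            exact Set.ncard_le_ncard hsub (Finset.finite_toSet _)
        _ ≤ (Finset.Icc 1 M).card := Finset.card_image_le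
        _ = M := by simp
    have h2 : ((ancestors K L R z).ncard : ℝ) ≤ M := by exact_mod_cast h1
    linarith

end Pool.Agent.Results.MP_b00f03_nt.NoRootlessTrees
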